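import Mathlib
import Pool.Agent.H19.Final

/-!
# Gorenstein algebras of codimension three that do not deform to complete intersections at a point

For every algebraically closed field `k` there are `n` and an ideal `I` of `R = k[[x,y,z]]` with
`dim_k R/I = n` such that `R/I` is Gorenstein and `I` is not in the Zariski closure, inside the
punctual Hilbert scheme `Hilb^n_0`, of the set of complete intersection ideals.

The objects of the statement (`Hilb0`, `IsGorenstein`, `IsCI` and the Zariski topology on
`Hilb0 k n`) are defined in `Pool/Agent/H19/Hilb.lean`. The description of the closed sets is
`Pool.Agent.H19.isClosed_hilb`: a subset `Z` of `Hilb0 k n` is closed if and only if the condition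
`I ∈ Z` is given by polynomial equations in the coordinates of the frames of `I`.

Idea of the proof. Let `I` be a punctual ideal of colength `n` over a field `K` containing `k`,
and let `δ₁, δ₂, δ₃` be `k`-derivations of `K`, acting on coefficients. If
`f₁, f₂, f₃ ∈ I` then `det (δᵢ fⱼ) ∈ I`. If `I` is a complete intersection this forces the
tangent directions to span an `A`-submodule `T` of `A³`, `A = R/I`, of codimension at
least `n/81`, so every family of complete intersections in `Hilb^n_0` depends on at
most `(3 - 1/81) n` parameters. The Gorenstein quotients of socle degree `2t` of
maximal length form a family with `(t³/3) · 3 + O(t²)` parameters and length `n = t³/3 + O(t²)`;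
for `t = 500` they cannot all be limits of complete intersections.
-/

namespace Pool.Agent.Results.MP_48d439_ag.NotLimitOfCI

open Pool.Agent.H19

/-- Over every algebraically closed field `k` there is a local Artinian Gorenstein quotient
`R/I` of `R = k[[x,y,z]]`, of some length `n`, such that the point `I` of `Hilb^n_0` is
not in the Zariski closure of the set of complete intersection ideals. -/
theorem result (k : Type*) [Field k] [IsAlgClosed k] :
    ∃ (n : ℕ) (I : Hilb0 k n), IsGorenstein I ∧ I ∉ closure {J : Hilb0 k n | IsCI J} := by
  have : Infinite k := IsAlgClosed.instInfinite
  exact main_theorem k

end Pool.Agent.Results.MP_48d439_ag.NotLimitOfCI
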